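import Pool.Agent.X125.PD.Bridge

/-!
# Pulsed diffusions of an exponentially mixing map need not decay double-exponentially

`phi = S⁻¹ A S` on the flat torus `(ℝ/ℤ)²`, where `A (x, y) = (y, -x + 3 y)` and
`S (x, y) = (x, y + s x)` with `e(s(x)) = (2 e(x) - 1) / (2 - e(x))` a Blaschke factor of `e(x)`.

Proof outline (files `Pool/Agent/X125/PD/*`).

1. `Shear.lean`: Fourier coefficients of `e(j s(x))`: decay, and exact values for `j = 1`.
2. `Torus.lean`, `Freq.lean`, `Mixing.lean`: matrix elements of the iterated composition operators;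
   exponential mixing in the `Ḣ³` norms.
3. `Heat.lean`: with `q = exp(-4 π² ν)` the pulsed diffusion is `q D(q) U` where `D(z)` is an analytic
   family of contractions for `|z| < 1`, and `D(0)` is the projection onto the lowest modes.
4. `Block.lean`: `D(0) U` restricted to the even low modes is an invertible matrix, so that
   `(D(0) U)^n` decays at most exponentially.
5. `Disc.lean`, `Growth.lean`: a double-exponentially small bound for `q` in a segment would, by a
   two-constants type argument, make the value at `z = 0` smaller than any exponential.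
-/

set_option autoImplicit false

noncomputable section

open MeasureTheory Function
open scoped ContDiff ComplexConjugate

namespace Pool.Agent.Results.MP_459901_an.NoUniformDecay

/-- the flat torus `(ℝ/ℤ)²` -/
abbrev Torus := UnitAddTorus (Fin 2)

/-- normalised Lebesgue (Haar) measure on the torus -/
abbrev vol : Measure Torus := Measure.pi fun _ => AddCircle.haarAddCircle

/-- a map of the torus is smooth: it has a `C^∞` lift to the plane -/
def IsSmooth (φ : Torus → Torus) : Prop :=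
  ∃ Φ : (Fin 2 → ℝ) → (Fin 2 → ℝ), ContDiff ℝ ∞ Φ ∧
    ∀ x : Fin 2 → ℝ, φ (fun i => (x i : UnitAddCircle)) = fun i => ((Φ x i : ℝ) : UnitAddCircle)

/-- smooth diffeomorphisms of the torus -/
def IsSmoothDiffeo (φ : Torus → Torus) : Prop :=
  IsSmooth φ ∧ ∃ ψ : Torus → Torus, IsSmooth ψ ∧ LeftInverse ψ φ ∧ RightInverse ψ φ

/-- square-integrable functions -/
def SqInt (f : Torus → ℂ) : Prop := MemLp f 2 vol

/-- the `L²` norm -/
def l2norm (f : Torus → ℂ) : ℝ := √(∫ x, ‖f x‖ ^ 2 ∂vol)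

/-- the inner product `⟨f, g⟩` of `L²` -/
def l2inner (f g : Torus → ℂ) : ℂ := ∫ x, f x * conj (g x) ∂vol

/-- the Fourier coefficient of `f` at the character of frequency `k` -/
def coeff (f : Torus → ℂ) (k : Fin 2 → ℤ) : ℂ := UnitAddTorus.mFourierCoeff f k

/-- the eigenvalue `4 π² |k|²` of `-Δ` for the character of frequency `k` -/
def eig (k : Fin 2 → ℤ) : ℝ := 4 * Real.pi ^ 2 * ((k 0 : ℝ) ^ 2 + (k 1 : ℝ) ^ 2)

/-- `g = e^{ν Δ} f` in `L²`: `g` has the Fourier coefficients `exp(-ν 4 π² |k|²) f̂(k)` -/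
def IsHeat (ν : ℝ) (f g : Torus → ℂ) : Prop :=
  ∀ k, coeff g k = (Real.exp (-(ν * eig k)) : ℝ) * coeff f k

/-- `θ` is the pulsed diffusion sequence `θ (n + 1) = e^{ν Δ} (θ n ∘ φ)` -/
def IsPulsed (φ : Torus → Torus) (ν : ℝ) (θ : ℕ → Torus → ℂ) : Prop :=
  ∀ n, SqInt (θ n) ∧ IsHeat ν (θ n ∘ φ) (θ (n + 1))

/-- the terms of the series for `‖(-Δ)^{r/2} f‖²` -/
def sobTerm (r : ℝ) (f : Torus → ℂ) (k : Fin 2 → ℤ) : ℝ := eig k ^ r * ‖coeff f k‖ ^ 2

/-- `f` lies in the homogeneous Sobolev space `Ḣ^r` of mean-zero functions -/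
def MemSob (r : ℝ) (f : Torus → ℂ) : Prop :=
  SqInt f ∧ ∫ x, f x ∂vol = 0 ∧ Summable (sobTerm r f)

/-- the norm `‖(-Δ)^{r/2} f‖` -/
def sobNorm (r : ℝ) (f : Torus → ℂ) : ℝ := √(∑' k, sobTerm r f k)

/-- strong `α, β` mixing with rate function `h` -/
def StronglyMixing (φ : Torus → Torus) (α β : ℝ) (h : ℝ → ℝ) : Prop :=
  ∀ (n : ℕ) (f g : Torus → ℂ), MemSob α f → MemSob β g →
    ‖l2inner (f ∘ φ^[n]) g‖ ≤ h n * sobNorm α f * sobNorm β g

/-- exponential mixing -/
def ExpMixing (φ : Torus → Torus) : Prop :=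
  ∃ α > 0, ∃ β > 0, ∃ c₁ > 0, ∃ c₂ > 0,
    StronglyMixing φ α β (fun t => c₁ * Real.exp (-(c₂ * t)))

open X125.PD in
/-- **Disproof of Q1.** There is an exponentially mixing smooth volume-preserving diffeomorphism of
the flat two-dimensional torus and a real-valued continuous mean-zero `θ₀` such that for all
`C > 0`, `γ > 1`, `ν₀ > 0` the bound `‖θ_n‖ ≤ exp(-ν γ^n / C) ‖θ₀‖` fails for some `ν ∈ (0, ν₀]` and
some `n ≥ 1`, where `θ` is the pulsed diffusion started at `θ₀`. -/
theorem result :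
    ∃ φ : Torus → Torus, MeasurePreserving φ vol vol ∧ IsSmoothDiffeo φ ∧ ExpMixing φ ∧
      ∃ θ₀ : Torus → ℝ, Continuous θ₀ ∧ ∫ x, θ₀ x ∂vol = 0 ∧
        ∀ C > 0, ∀ γ > 1, ∀ ν₀ > 0, ∃ ν > 0, ν ≤ ν₀ ∧ ∃ θ : ℕ → Torus → ℂ,
          (θ 0 = fun x => (θ₀ x : ℂ)) ∧ IsPulsed φ ν θ ∧
            ∃ n : ℕ, 1 ≤ n ∧ Real.exp (-(ν * γ ^ n / C)) * l2norm (θ 0) < l2norm (θ n) := by
  have hmean : ∀ f : Torus → ℂ, UnitAddTorus.mFourierCoeff f 0 = ∫ x, f x ∂vol := by
    intro f
    unfold UnitAddTorus.mFourierCoeff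
    simp only [neg_zero, UnitAddTorus.mFourier_zero, ContinuousMap.one_apply, one_smul]
    rfl
  refine ⟨phi, mp_phi, ⟨smooth_phi, psi, smooth_psi, psi_phi, phi_psi⟩, ?_, q0, continuous_q0, ?_, ?_⟩
  · obtain ⟨α, hα, β, hβ, c₁, h₁, c₂, h₂, h⟩ := expMixing_phi
    refine ⟨α, hα, β, hβ, c₁, h₁, c₂, h₂, fun n f g hf hg => ?_⟩
    exact mixing_fun h n hf.1 hg.1 ((hmean f).trans hf.2.1) ((hmean g).trans hg.2.1) hf.2.2 hg.2.2
  · have h1 : ∫ x, ((q0 x : ℝ) : ℂ) ∂vol = 0 := by
      rw [← hmean, ← coeff_congr q0_ae, coeff_eq]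
      exact mean_qv
    rw [integral_complex_ofReal] at h1
    exact_mod_cast h1
  · intro C hC γ hγ ν₀ hν₀
    obtain ⟨ν, hν, hνν, n, hn, hlt⟩ := main_lower hC hγ hν₀
    refine ⟨ν, hν, hνν, fun m => if m = 0 then fun x => (q0 x : ℂ) else
      (pulsed phi mp_phi ν m qv : Torus → ℂ), by simp, ?_, n, hn, ?_⟩
    · intro m
      have hae : (if m = 0 then fun x => (q0 x : ℂ) else (pulsed phi mp_phi ν m qv : Torus → ℂ))
          =ᵐ[vol] (pulsed phi mp_phi ν m qv : Torus → ℂ) := by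
        by_cases hm : m = 0
        · rw [if_pos hm, hm]
          exact q0_ae.symm
        · rw [if_neg hm]
      refine ⟨(memLp_congr_ae hae).2 (Lp.memLp _), fun k => ?_⟩
      have h1 := coeff_pulsed hν m qv k
      have h2 : (if m + 1 = 0 then fun x => (q0 x : ℂ) else
          (pulsed phi mp_phi ν (m + 1) qv : Torus → ℂ)) = (pulsed phi mp_phi ν (m + 1) qv : Torus → ℂ) :=
        if_neg (Nat.succ_ne_zero m)
      have h3 := coeff_congr (mp_phi.quasiMeasurePreserving.ae_eq_comp hae) k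
      change UnitAddTorus.mFourierCoeff (if m + 1 = 0 then fun x => (q0 x : ℂ) else
          (pulsed phi mp_phi ν (m + 1) qv : Torus → ℂ)) k = _
      rw [h2, h1]
      exact congrArg _ h3.symm
    · have hn0 : n ≠ 0 := by omega
      have h1 : l2norm (if n = 0 then fun x => (q0 x : ℂ) else (pulsed phi mp_phi ν n qv : Torus → ℂ))
          = ‖pulsed phi mp_phi ν n qv‖ := by
        rw [if_neg hn0]
        exact (norm_eq_integral _).symm
      have h2 : l2norm (if (0 : ℕ) = 0 then fun x => (q0 x : ℂ) else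
          (pulsed phi mp_phi ν 0 qv : Torus → ℂ)) = ‖qv‖ := by
        rw [if_pos rfl, norm_eq_integral]
        unfold l2norm
        congr 1
        apply integral_congr_ae
        filter_upwards [q0_ae] with x hx
        rw [hx]
      rw [h1, h2]
      exact hlt

end Pool.Agent.Results.MP_459901_an.NoUniformDecay
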